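import Mathlib

namespace Pool.Agent.Results.MP_205740_an.No

open Real Finset intervalIntegral

/-- A `2π`-periodic weight function. -/
def IsWeight (W : ℝ → ℝ) : Prop :=
  Measurable W ∧ Function.Periodic W (2 * π) ∧ (∀ θ, 0 ≤ W θ) ∧
    IntervalIntegrable W MeasureTheory.volume (-π) π ∧ 0 < ∫ θ in (-π)..π, W θ

/-- The real trigonometric polynomial of degree at most `n` with coefficients `a`, `b`. -/
noncomputable def trig (n : ℕ) (a b : ℕ → ℝ) (θ : ℝ) : ℝ :=
  a 0 + ∑ k ∈ Icc 1 n, (a k * cos (k * θ) + b k * sin (k * θ))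

/-- A Chebyshev-type trigonometric quadrature of degree `n` for `W` with `N` nodes exists. -/
def HasQuad (W : ℝ → ℝ) (n N : ℕ) : Prop :=
  ∃ (θ : Fin N → ℝ) (l : ℝ), Monotone θ ∧
    ∀ a b : ℕ → ℝ, ∫ t in (-π)..π, trig n a b t * W t = l * ∑ i, trig n a b (θ i)

/-- `N^trig_W(n)`, the least number of nodes (`⊤` if there were no quadrature). -/
noncomputable def Ntrig (W : ℝ → ℝ) (n : ℕ) : ℕ∞ := ⨅ (N : ℕ) (_ : HasQuad W n N), (N : ℕ∞)

noncomputable def J (k : ℕ) : ℝ := ∫ t in (-π)..π, cos t ^ k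

theorem J2 (k : ℕ) : J (k + 2) = (k + 1) / (k + 2) * J k := by simp [J, integral_cos_pow]

theorem Jodd (j : ℕ) : J (2 * j + 1) = 0 := by
  induction j with
  | zero => simp [J]
  | succ j ih => rw [show 2 * (j + 1) + 1 = 2 * j + 1 + 2 by ring, J2, ih, mul_zero]

theorem Jpos (j : ℕ) : 0 < J (2 * j) := by
  induction j with
  | zero => simpa [J] using pi_pos
  | succ j ih => rw [show 2 * (j + 1) = 2 * j + 2 by ring, J2]; positivity

theorem Jsin (k : ℕ) : ∫ t in (-π)..π, sin t * cos t ^ k = 0 := by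
  have := integral_comp_neg (a := -π) (b := π) fun t => sin t * cos t ^ k
  simp only [sin_neg, cos_neg, neg_mul, integral_neg, neg_neg] at this
  linarith

theorem trig2 (a b : ℕ → ℝ) (t : ℝ) : trig 2 a b t =
    a 0 - a 2 + a 1 * cos t + 2 * a 2 * cos t ^ 2 + b 1 * sin t + 2 * b 2 * (sin t * cos t) := by
  rw [trig, show Icc 1 2 = {1, 2} from rfl, sum_pair (by norm_num)]
  simp [cos_two_mul, sin_two_mul]
  ring

theorem int2 (a b : ℕ → ℝ) (k : ℕ) : ∫ t in (-π)..π, trig 2 a b t * cos t ^ k =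
    (a 0 - a 2) * J k + a 1 * J (k + 1) + 2 * a 2 * J (k + 2) := by
  have : ∀ t, trig 2 a b t * cos t ^ k = (a 0 - a 2) * cos t ^ k + a 1 * cos t ^ (k + 1) +
      2 * a 2 * cos t ^ (k + 2) + b 1 * (sin t * cos t ^ k) +
      2 * b 2 * (sin t * cos t ^ (k + 1)) := fun t => by rw [trig2]; ring
  simp only [this]
  rw [integral_add, integral_add, integral_add, integral_add]
  · simp only [integral_const_mul, Jsin, J]; ring
  all_goals exact Continuous.intervalIntegrable (by fun_prop) _ _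

theorem quad4 (j : ℕ) : HasQuad (fun t => cos t ^ (2 * j)) 2 4 := by
  have r0 : (0 : ℝ) ≤ (2 * j + 1) / (2 * j + 2) := by positivity
  have r1 : √((2 * j + 1) / (2 * j + 2) : ℝ) ≤ 1 :=
    sqrt_le_one.2 ((div_le_one (by positivity)).2 (by linarith))
  have h1 := cos_arccos ((by norm_num : (-1 : ℝ) ≤ 0).trans (sqrt_nonneg _)) r1
  have h2 := arccos_nonneg √((2 * j + 1) / (2 * j + 2) : ℝ)
  have h3 := arccos_le_pi_div_two.2 (sqrt_nonneg ((2 * j + 1) / (2 * j + 2) : ℝ))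
  generalize arccos _ = φ at *
  refine ⟨![-φ, φ, π - φ, π + φ], J (2 * j) / 4, Fin.monotone_iff_le_succ.2 fun i => ?_,
    fun a b => ?_⟩
  · fin_cases i <;> simp <;> linarith
  · have : cos φ ^ 2 = (2 * j + 1) / (2 * j + 2) := by rw [h1, sq_sqrt r0]
    rw [int2, Jodd, J2]
    simp [Fin.sum_univ_four, trig2, cos_add, sin_add, this]
    ring

theorem noquad (a : ℝ) (ha : 0 < a) (K N : ℕ) (hN : N ≤ K) :
    ¬ HasQuad (fun t => a * (1 + cos t / (K + 1)) * cos t ^ (2 * (K * (K + 1)))) 2 N := by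
  rintro ⟨θ, l, -, h⟩
  generalize hj : K * (K + 1) = j at h
  have hj : (j : ℝ) = K * (K + 1) := by rw [← hj]; push_cast; ring
  have e : ∀ u v : ℕ → ℝ, ∫ t in (-π)..π, trig 2 u v t * (a * (1 + cos t / (K + 1)) *
      cos t ^ (2 * j)) = a * ((u 0 - u 2) * J (2 * j) + (u 1 / (K + 1) + 2 * u 2) * J (2 * j + 2)) :=
    fun u v => by
      have : ∀ t, trig 2 u v t * (a * (1 + cos t / (K + 1)) * cos t ^ (2 * j)) =
          a * (trig 2 u v t * cos t ^ (2 * j)) + a / (K + 1) * (trig 2 u v t * cos t ^ (2 * j + 1)) :=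
        fun t => by ring
      simp only [this]
      rw [integral_add, integral_const_mul, integral_const_mul, int2, int2, Jodd,
        show 2 * j + 1 + 2 = 2 * (j + 1) + 1 by ring, Jodd]
      · ring
      all_goals exact Continuous.intervalIntegrable (by unfold trig; fun_prop) _ _
  have h0 := h (fun k => if k = 0 then 1 else 0) 0
  have h1 := h (fun k => if k = 1 then 1 else 0) 0
  have h2 := h (fun k => if k = 1 then 0 else 1 / 2) 0
  rw [e] at h0 h1 h2
  simp [trig2, J2] at h0 h1 h2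
  have p := mul_pos ha (Jpos j)
  have N0 : N ≠ 0 := by rintro rfl; simp at h0; rcases h0 with h | h; exacts [ha.ne' h, (Jpos j).ne' h]
  have N1 : (1 : ℝ) ≤ N := by exact_mod_cast Nat.one_le_iff_ne_zero.2 N0
  have N2 : (N : ℝ) ≤ K := by exact_mod_cast hN
  have l0 : l ≠ 0 := by rintro rfl; linarith
  have e2 : ∑ i, cos (θ i) ^ 2 = N * ((2 * j + 1) / (2 * j + 2)) :=
    mul_left_cancel₀ l0 (by rw [← h2, ← mul_assoc l, ← h0]; ring)
  have e1 : ∑ i, cos (θ i) = N * ((2 * j + 1) / (2 * j + 2)) / (K + 1) :=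
    mul_left_cancel₀ l0 (by rw [← h1, ← mul_div_assoc l, ← mul_assoc l, ← h0]; ring)
  let s : Fin N → ℤ := fun i => if 0 ≤ cos (θ i) then 1 else -1
  have b : |∑ i, (s i : ℝ) - ∑ i, cos (θ i)| ≤ N - ∑ i, cos (θ i) ^ 2 := by
    rw [← sum_sub_distrib]
    refine (abs_sum_le_sum_abs _ _).trans ((sum_le_sum (g := fun i => 1 - cos (θ i) ^ 2)
      fun i _ => ?_).trans_eq (by simp))
    have := cos_le_one (θ i)
    have := neg_one_le_cos (θ i)
    simp only [s]
    split_ifs with h <;> push_cast <;> rw [abs_le] <;> constructor <;> nlinarith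
  rw [e1, e2, ← Int.cast_sum, abs_le] at b
  generalize ∑ i, s i = z at b
  obtain ⟨r, hr⟩ : ∃ r : ℝ, r = 1 / (2 * j + 2) := ⟨_, rfl⟩
  have j0 : (0 : ℝ) ≤ j := j.cast_nonneg
  have r0 : 0 < r := by rw [hr]; positivity
  have r1 : r * (2 * (K * (K + 1)) + 2) = 1 := by rw [hr, hj]; field_simp
  rw [show (2 * j + 1) / (2 * j + 2) = 1 - r by rw [hr]; field_simp; ring] at b
  obtain ⟨b1, b2⟩ := b
  have K0 : (0 : ℝ) < K + 1 := by linarith
  obtain ⟨q, hq⟩ : ∃ q, q = N * (1 - r) / (K + 1) := ⟨_, rfl⟩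
  rw [← hq] at b1 b2
  rw [eq_div_iff K0.ne'] at hq
  have w : N * r * (K + 1) ≤ K * r * (K + 1) := by gcongr
  have w' : N * r ≤ K * r := by gcongr
  rcases le_or_gt z 0 with h | h
  · have : (z : ℝ) ≤ 0 := by exact_mod_cast h
    nlinarith [mul_le_mul_of_nonneg_right (show q ≤ N * r by linarith) K0.le]
  · have : (1 : ℝ) ≤ z := by exact_mod_cast h
    nlinarith [mul_le_mul_of_nonneg_right (show 1 ≤ q + N * r by linarith) K0.le]

theorem result (m M : ℝ) (hm : 0 < m) (hM : m < M) (K : ℕ) : ∃ W h : ℝ → ℝ, IsWeight W ∧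
    Measurable h ∧ Function.Periodic h (2 * π) ∧ (∀ θ, m < h θ ∧ h θ < M) ∧
    Ntrig W 2 ≤ 4 ∧ (K : ℕ∞) < Ntrig (fun θ => h θ * W θ) 2 := by
  obtain ⟨L, hL⟩ := exists_nat_gt ((M + m) / (M - m))
  rw [div_lt_iff₀ (by linarith)] at hL
  refine ⟨fun t => cos t ^ (2 * ((K + L) * (K + L + 1))),
    fun t => (M + m) / 2 * (1 + cos t / ((K + L : ℕ) + 1)), ⟨by fun_prop, fun t => by simp,
      fun t => by simp only [pow_mul]; positivity, Continuous.intervalIntegrable (by fun_prop) _ _,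
      Jpos _⟩, by fun_prop, fun t => by simp, fun t => ?_, iInf₂_le (f := fun (N : ℕ)
        (_ : HasQuad _ 2 N) => (N : ℕ∞)) 4 (quad4 _), ?_⟩
  · have K0 : (0 : ℝ) ≤ K := K.cast_nonneg
    have L0 : (0 : ℝ) ≤ L := L.cast_nonneg
    have : |cos t / ((K + L : ℕ) + 1)| * (M + m) < M - m := by
      rw [abs_div, abs_of_pos (by positivity : (0 : ℝ) < (K + L : ℕ) + 1), div_mul_eq_mul_div,
        div_lt_iff₀ (by positivity)]
      push_cast
      nlinarith [abs_cos_le_one t]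
    constructor <;> nlinarith [le_abs_self (cos t / ((K + L : ℕ) + 1)),
      neg_abs_le (cos t / ((K + L : ℕ) + 1))]
  · refine lt_of_lt_of_le (b := ((K + 1 : ℕ) : ℕ∞)) (by exact_mod_cast Nat.lt_succ_self K)
      (le_iInf₂ fun N hN => ?_)
    by_contra h
    exact noquad _ (by linarith) (K + L) N (by
      have : N < K + 1 := by exact_mod_cast not_le.1 h
      omega) hN

end Pool.Agent.Results.MP_205740_an.No
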